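import Pool.Agent.W289.CG.Stm

/-!
# Class groups of large rank: elements with valuations divisible by `m`
-/

set_option autoImplicit false

namespace Pool.Agent.W64.CG

open Pool.Agent.W289.CG NumberField nonZeroDivisors IsDedekindDomain FractionalIdeal

theorem exp_div_exp (a b : ℤ) : WithZero.exp a / WithZero.exp b = WithZero.exp (a - b) := by
  rw [WithZero.exp_sub]

theorem val : TaskVal := by
  intro K _ _ m x hm hv
  classical
  obtain ⟨n, d, hnd⟩ := IsLocalization.exists_mk'_eq (𝓞 K)⁰ (x : K)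
  have hn0 : n ≠ 0 := by
    rintro rfl
    rw [IsFractionRing.mk'_eq_div, map_zero, zero_div] at hnd
    exact x.ne_zero hnd.symm
  have hd0 : (d : 𝓞 K) ≠ 0 := nonZeroDivisors.coe_ne_zero d
  choose z hz using hv
  -- the counts
  have hcount : ∀ v : HeightOneSpectrum (𝓞 K),
      ((Associates.mk v.asIdeal).count (Associates.mk (Ideal.span {n} : Ideal (𝓞 K))).factors : ℤ) -
        ((Associates.mk v.asIdeal).count (Associates.mk (Ideal.span {(d : 𝓞 K)} :
          Ideal (𝓞 K))).factors : ℤ) = (-z v) * m := by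
    intro v
    have h1 := hz v
    rw [← hnd, HeightOneSpectrum.valuation_of_mk', HeightOneSpectrum.intValuation_if_neg v hn0,
      HeightOneSpectrum.intValuation_if_neg v hd0, exp_div_exp, WithZero.exp_inj] at h1
    linarith
  have hfac := finprod_heightOneSpectrum_factorization_principal_fraction (R := 𝓞 K) (K := K) hn0 d
  have hfin : (Function.mulSupport fun v : HeightOneSpectrum (𝓞 K) =>
      (v.asIdeal : FractionalIdeal (𝓞 K)⁰ K) ^ (-z v)).Finite := by
    have hI : spanSingleton (𝓞 K)⁰ (IsLocalization.mk' K n d) =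
        spanSingleton (𝓞 K)⁰ ((algebraMap (𝓞 K) K) d)⁻¹ * ↑(Ideal.span {n} : Ideal (𝓞 K)) := by
      rw [coeIdeal_span_singleton, spanSingleton_mul_spanSingleton]
      apply congr_arg
      rw [IsFractionRing.mk'_eq_div, div_eq_mul_inv, mul_comm]
    have hne : spanSingleton (𝓞 K)⁰ (IsLocalization.mk' K n d) ≠ 0 := by
      rw [hnd, spanSingleton_ne_zero_iff]
      exact x.ne_zero
    have h2 := finite_factors' hne hI
    rw [Filter.eventually_cofinite] at h2
    apply h2.subset
    intro v hv
    rw [Function.mem_mulSupport] at hv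
    intro h3
    apply hv
    have h4 := hcount v
    rw [h3] at h4
    have h5 : z v = 0 := by
      have hm' : (m : ℤ) ≠ 0 := by exact_mod_cast (by omega : m ≠ 0)
      rcases mul_eq_zero.1 h4.symm with h | h
      · linarith
      · exact absurd h hm'
    rw [h5]
    simp
  have hpow : (∏ᶠ v : HeightOneSpectrum (𝓞 K), (v.asIdeal : FractionalIdeal (𝓞 K)⁰ K) ^ (-z v)) ^ m
      = spanSingleton (𝓞 K)⁰ (x : K) := by
    rw [finprod_pow hfin, ← hnd, ← hfac]
    apply finprod_congr
    intro v
    rw [hcount v, zpow_mul, zpow_natCast]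
  have hne0 : (∏ᶠ v : HeightOneSpectrum (𝓞 K), (v.asIdeal : FractionalIdeal (𝓞 K)⁰ K) ^ (-z v))
      ≠ 0 := by
    intro h
    rw [h, zero_pow (by omega)] at hpow
    have := (spanSingleton_ne_zero_iff (R := 𝓞 K) (S := (𝓞 K)⁰) (y := (x : K))).2 x.ne_zero
    exact this hpow.symm
  refine ⟨Units.mk0 _ hne0, ?_⟩
  apply Units.ext
  rw [Units.val_pow_eq_pow_val, Units.val_mk0, hpow, coe_toPrincipalIdeal]

end Pool.Agent.W64.CG
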